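import Mathlib

/-!
# MP_6c00f2_co: definitions
-/

namespace Pool.Agent.R325.Dim

/-- `B` is dissociated: there is no nontrivial relation with coefficients `-1, 0, 1`. -/
def Dissociated {G : Type} [AddCommGroup G] (B : Finset G) : Prop :=
  ∀ ε : G → ℤ, (∀ b ∈ B, ε b = -1 ∨ ε b = 0 ∨ ε b = 1) → ∑ b ∈ B, ε b • b = 0 →
    ∀ b ∈ B, ε b = 0

/-- the dissociativity dimension of `A`: the largest size of a dissociated subset of `A` -/
noncomputable def dimSet {G : Type} [AddCommGroup G] (A : Finset G) : ℕ :=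
  sSup {k : ℕ | ∃ B : Finset G, B ⊆ A ∧ Dissociated B ∧ B.card = k}

/-- `dim(G, m)`: the least dissociativity dimension of a subset of `G` with `m` elements -/
noncomputable def dimGm (G : Type) [AddCommGroup G] (m : ℕ) : ℕ :=
  sInf {d : ℕ | ∃ A : Finset G, A.card = m ∧ dimSet A = d}

end Pool.Agent.R325.Dim
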