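import Pool.Agent.R325.Dim.Defs

/-!
# MP_6c00f2_co: the value of `dim(Z_n, m)` for `m` near `n`, and counterexamples to the conjecture
-/

set_option autoImplicit false

open Finset

namespace Pool.Agent.R325.Dim

/-! ### General facts -/

section gen

variable {G : Type} [AddCommGroup G]

theorem dissociated_empty : Dissociated (∅ : Finset G) := by
  intro ε _ _ b hb
  exact absurd hb (Finset.notMem_empty b)

/-- different subsets of a dissociated set have different sums -/
theorem Dissociated.sum_inj [DecidableEq G] {B : Finset G} (hB : Dissociated B) {S T : Finset G}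
    (hS : S ⊆ B) (hT : T ⊆ B) (h : ∑ b ∈ S, b = ∑ b ∈ T, b) : S = T := by
  have h1 := hB (fun b => (if b ∈ S then 1 else 0) - (if b ∈ T then 1 else 0))
    (fun b _ => by
      by_cases h1 : b ∈ S <;> by_cases h2 : b ∈ T <;> simp [h1, h2])
    (by
      simp only [sub_smul, Finset.sum_sub_distrib, ite_smul, one_smul, zero_smul]
      rw [← Finset.sum_filter, ← Finset.sum_filter, Finset.filter_mem_eq_inter,
        Finset.filter_mem_eq_inter, Finset.inter_eq_right.2 hS, Finset.inter_eq_right.2 hT, h,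
        sub_self])
  ext b
  by_cases hb : b ∈ B
  · have h2 := h1 b hb
    by_cases h3 : b ∈ S <;> by_cases h4 : b ∈ T <;> simp [h3, h4] at h2 ⊢
  · exact ⟨fun h3 => absurd (hS h3) hb, fun h3 => absurd (hT h3) hb⟩

theorem Dissociated.card_le [Fintype G] {B : Finset G} (hB : Dissociated B) :
    B.card ≤ Nat.log 2 (Fintype.card G) := by
  classical
  have h1 : (B.powerset).card ≤ (Finset.univ : Finset G).card := by
    refine Finset.card_le_card_of_injOn (fun S => ∑ b ∈ S, b) (fun _ _ => Finset.mem_univ _) ?_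
    intro S hS T hT h
    exact hB.sum_inj (Finset.mem_powerset.1 hS) (Finset.mem_powerset.1 hT) h
  rw [Finset.card_powerset, Finset.card_univ] at h1
  exact Nat.le_log_of_pow_le (by norm_num) h1

theorem dimSet_bdd [Fintype G] (A : Finset G) :
    BddAbove {k : ℕ | ∃ B : Finset G, B ⊆ A ∧ Dissociated B ∧ B.card = k} := by
  refine ⟨Nat.log 2 (Fintype.card G), ?_⟩
  rintro k ⟨B, -, hB, rfl⟩
  exact hB.card_le

theorem le_dimSet [Fintype G] {A B : Finset G} (h : B ⊆ A) (hB : Dissociated B) :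
    B.card ≤ dimSet A := le_csSup (dimSet_bdd A) ⟨B, h, hB, rfl⟩

theorem dimSet_le {A : Finset G} {k : ℕ} (h : ∀ B ⊆ A, Dissociated B → B.card ≤ k) :
    dimSet A ≤ k := by
  refine csSup_le ⟨0, ∅, Finset.empty_subset _, dissociated_empty, rfl⟩ ?_
  rintro d ⟨B, hBA, hB, rfl⟩
  exact h B hBA hB

theorem dimGm_le {A : Finset G} {m : ℕ} (hA : A.card = m) : dimGm G m ≤ dimSet A :=
  Nat.sInf_le ⟨A, hA, rfl⟩

theorem le_dimGm [Fintype G] {m k : ℕ} (hm : m ≤ Fintype.card G)
    (h : ∀ A : Finset G, A.card = m → k ≤ dimSet A) : k ≤ dimGm G m := by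
  obtain ⟨A, -, hA⟩ := Finset.exists_subset_card_eq (s := (Finset.univ : Finset G))
    (n := m) (by rwa [Finset.card_univ])
  have hne : {d : ℕ | ∃ A : Finset G, A.card = m ∧ dimSet A = d}.Nonempty := ⟨_, A, hA, rfl⟩
  obtain ⟨A', hA', h1⟩ := Nat.sInf_mem hne
  unfold dimGm
  rw [← h1]
  exact h A' hA'

end gen

/-! ### Powers of two -/

theorem pow_bound (ε : ℕ → ℤ) (k : ℕ) (h : ∀ i < k, ε i = -1 ∨ ε i = 0 ∨ ε i = 1) :
    |∑ i ∈ range k, ε i * 2 ^ i| < 2 ^ k := by
  induction k with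
  | zero => simp
  | succ k ih =>
    have h1 := ih fun i hi => h i (by omega)
    rw [Finset.sum_range_succ]
    have h2 : (0 : ℤ) < 2 ^ k := by positivity
    rw [abs_lt] at h1 ⊢
    rw [pow_succ]
    rcases h k (by omega) with h3 | h3 | h3 <;> rw [h3] <;> constructor <;> linarith [h1.1, h1.2]

theorem pow_zero_of (ε : ℕ → ℤ) (k : ℕ) (h : ∀ i < k, ε i = -1 ∨ ε i = 0 ∨ ε i = 1)
    (h0 : ∑ i ∈ range k, ε i * 2 ^ i = 0) : ∀ i < k, ε i = 0 := by
  induction k with
  | zero => intro i hi; omega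
  | succ k ih =>
    have h1 := pow_bound ε k fun i hi => h i (by omega)
    rw [Finset.sum_range_succ] at h0
    have h2 : (0 : ℤ) < 2 ^ k := by positivity
    rw [abs_lt] at h1
    have h3 : ε k = 0 := by
      rcases h k (by omega) with h3 | h3 | h3
      · rw [h3] at h0
        linarith [h1.1, h1.2]
      · exact h3
      · rw [h3] at h0
        linarith [h1.1, h1.2]
    rw [h3, zero_mul, add_zero] at h0
    intro i hi
    rcases Nat.lt_succ_iff_lt_or_eq.1 hi with h4 | h4
    · exact ih (fun i hi => h i (by omega)) h0 i h4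
    · rw [h4, h3]

/-- the multiples by a unit of the powers of two -/
def bu {n : ℕ} (k : ℕ) (u : (ZMod n)ˣ) : Finset (ZMod n) :=
  (range k).image fun i => (u : ZMod n) * 2 ^ i

theorem bu_inj {n : ℕ} {k : ℕ} (hk : 2 ^ k ≤ n) (u : (ZMod n)ˣ) :
    Set.InjOn (fun i : ℕ => (u : ZMod n) * 2 ^ i) (range k : Finset ℕ) := by
  intro i hi j hj h
  have hi' : i < k := by simpa using hi
  have hj' : j < k := by simpa using hj
  have h1 : (2 : ZMod n) ^ i = 2 ^ j := u.isUnit.mul_left_cancel h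
  have h2 : ((2 ^ i : ℕ) : ZMod n) = ((2 ^ j : ℕ) : ZMod n) := by
    push_cast
    exact h1
  rw [ZMod.natCast_eq_natCast_iff'] at h2
  have h3 : 2 ^ i < n := (Nat.pow_lt_pow_right (by norm_num) hi').trans_le hk
  have h4 : 2 ^ j < n := (Nat.pow_lt_pow_right (by norm_num) hj').trans_le hk
  rw [Nat.mod_eq_of_lt h3, Nat.mod_eq_of_lt h4] at h2
  exact Nat.pow_right_injective (le_refl 2) h2

theorem bu_card {n : ℕ} {k : ℕ} (hk : 2 ^ k ≤ n) (u : (ZMod n)ˣ) : (bu k u).card = k := by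
  unfold bu
  rw [Finset.card_image_of_injOn (bu_inj hk u), Finset.card_range]

theorem bu_dissociated {n : ℕ} {k : ℕ} (hk : 2 ^ k ≤ n) (u : (ZMod n)ˣ) :
    Dissociated (bu k u) := by
  intro ε hε h0
  obtain ⟨δ, hδ⟩ : ∃ δ : ℕ → ℤ, δ = fun i => ε ((u : ZMod n) * 2 ^ i) := ⟨_, rfl⟩
  have h1 : ∀ i < k, δ i = -1 ∨ δ i = 0 ∨ δ i = 1 := by
    intro i hi
    rw [hδ]
    exact hε _ (Finset.mem_image_of_mem _ (Finset.mem_range.2 hi))
  unfold bu at h0
  rw [Finset.sum_image (bu_inj hk u)] at h0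
  have h2 : ((∑ i ∈ range k, δ i * 2 ^ i : ℤ) : ZMod n) = 0 := by
    have h3 : (u : ZMod n) * ((∑ i ∈ range k, δ i * 2 ^ i : ℤ) : ZMod n) = 0 := by
      rw [← h0, hδ]
      push_cast
      rw [Finset.mul_sum]
      refine Finset.sum_congr rfl fun i _ => ?_
      rw [zsmul_eq_mul]
      ring
    exact (u.isUnit.mul_right_eq_zero).1 h3
  rw [ZMod.intCast_zmod_eq_zero_iff_dvd] at h2
  have h3 : ∑ i ∈ range k, δ i * 2 ^ i = 0 := by
    refine Int.eq_zero_of_abs_lt_dvd h2 ((pow_bound δ k h1).trans_le ?_)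
    exact_mod_cast hk
  have h4 := pow_zero_of δ k h1 h3
  intro b hb
  obtain ⟨i, hi, rfl⟩ := Finset.mem_image.1 hb
  have := h4 i (Finset.mem_range.1 hi)
  rwa [hδ] at this

/-- a large subset of `Z_n` contains a unit multiple of the powers of two -/
theorem exists_bu {n : ℕ} [NeZero n] (hn : Odd n) (k : ℕ) (A : Finset (ZMod n))
    (h : (n - A.card) * k < Nat.totient n) : ∃ u : (ZMod n)ˣ, bu k u ⊆ A := by
  by_contra hcon
  push Not at hcon
  have h1 : ∀ u : (ZMod n)ˣ, ∃ i ∈ range k, (u : ZMod n) * 2 ^ i ∉ A := by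
    intro u
    obtain ⟨x, hx, hxA⟩ := Finset.not_subset.1 (hcon u)
    obtain ⟨i, hi, rfl⟩ := Finset.mem_image.1 hx
    exact ⟨i, hi, hxA⟩
  choose f hf1 hf2 using h1
  have h2 : IsUnit (2 : ZMod n) := by
    have h3 : IsUnit ((2 : ℕ) : ZMod n) := by
      rw [ZMod.isUnit_iff_coprime]
      exact Nat.coprime_two_left.2 hn
    simpa using h3
  have h3 : (Finset.univ : Finset (ZMod n)ˣ).card ≤ (Aᶜ ×ˢ range k).card := by
    refine Finset.card_le_card_of_injOn (fun u => ((u : ZMod n) * 2 ^ (f u), f u)) ?_ ?_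
    · intro u _
      rw [Finset.mem_coe, Finset.mem_product]
      exact ⟨Finset.mem_compl.2 (hf2 u), hf1 u⟩
    · intro u _ v _ huv
      have h4 : (u : ZMod n) * 2 ^ (f u) = (v : ZMod n) * 2 ^ (f v) := congrArg Prod.fst huv
      have h5 : f u = f v := congrArg Prod.snd huv
      rw [h5] at h4
      exact Units.ext ((h2.pow (f v)).mul_right_cancel h4)
  rw [Finset.card_univ, ZMod.card_units_eq_totient, Finset.card_product, Finset.card_compl,
    ZMod.card, Finset.card_range] at h3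
  omega

/-- the exact value for `m` near `n` -/
theorem dimGm_eq {n m : ℕ} (hn : Odd n) (hm : m ≤ n)
    (h : (n - m) * Nat.log 2 n < Nat.totient n) : dimGm (ZMod n) m = Nat.log 2 n := by
  have hn0 : n ≠ 0 := by
    rintro rfl
    simp at hn
  have : NeZero n := ⟨hn0⟩
  have hk : 2 ^ Nat.log 2 n ≤ n := Nat.pow_log_le_self 2 hn0
  refine le_antisymm ?_ ?_
  · obtain ⟨A, -, hA⟩ := Finset.exists_subset_card_eq (s := (Finset.univ : Finset (ZMod n)))
      (n := m) (by rwa [Finset.card_univ, ZMod.card])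
    refine (dimGm_le hA).trans (dimSet_le fun B _ hB => ?_)
    have h1 := hB.card_le
    rwa [ZMod.card] at h1
  · refine le_dimGm (by rwa [ZMod.card]) fun A hA => ?_
    obtain ⟨u, hu⟩ := exists_bu hn (Nat.log 2 n) A (by rwa [hA])
    have h1 := le_dimSet hu (bu_dissociated hk u)
    rwa [bu_card hk u] at h1

/-! ### The counterexamples -/

theorem seven (k : ℕ) : ¬ 7 ∣ 2 ^ k + 1 := by
  have h : 2 ^ k % 7 = 1 ∨ 2 ^ k % 7 = 2 ∨ 2 ^ k % 7 = 4 := by
    induction k with
    | zero => left; rfl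
    | succ k ih =>
      rw [pow_succ]
      omega
  omega

theorem totient_lower {k : ℕ} (hk : 4 ≤ k) : 2 * k < Nat.totient (2 ^ k + 1) := by
  obtain ⟨n, hn⟩ : ∃ n, n = 2 ^ k + 1 := ⟨_, rfl⟩
  have hodd : Odd n := by
    rw [hn]
    exact (Nat.even_pow.2 ⟨even_two, by omega⟩).add_one
  have h16 : 16 ≤ 2 ^ k := by
    calc 16 = 2 ^ 4 := by norm_num
      _ ≤ 2 ^ k := Nat.pow_le_pow_right (by norm_num) hk
  have hsplit : 2 ^ k = 2 * 2 ^ (k - 1) := by
    rw [← pow_succ']
    congr 1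
    omega
  have hpow : ∀ i < k, 2 ^ i ≤ 2 ^ (k - 1) := fun i hi =>
    Nat.pow_le_pow_right (by norm_num) (by omega)
  obtain ⟨S1, hS1⟩ : ∃ S1 : Finset ℕ, S1 = (range k).image fun i => 2 ^ i := ⟨_, rfl⟩
  obtain ⟨S2, hS2⟩ : ∃ S2 : Finset ℕ, S2 = (range k).image fun i => n - 2 ^ i := ⟨_, rfl⟩
  have hc2 : ∀ i : ℕ, Nat.Coprime n (2 ^ i) := fun i =>
    Nat.Coprime.pow_right i (Nat.coprime_two_right.2 hodd)
  have c1 : S1.card = k := by
    rw [hS1, Finset.card_image_of_injective _ (Nat.pow_right_injective (le_refl 2)),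
      Finset.card_range]
  have c2 : S2.card = k := by
    rw [hS2, Finset.card_image_of_injOn, Finset.card_range]
    intro i hi j hj hij
    have hi' : i < k := by simpa using hi
    have hj' : j < k := by simpa using hj
    have h1 := hpow i hi'
    have h2 := hpow j hj'
    have h3 : n - 2 ^ i = n - 2 ^ j := hij
    exact Nat.pow_right_injective (le_refl 2) (show 2 ^ i = 2 ^ j by omega)
  have hd : Disjoint S1 S2 := by
    rw [Finset.disjoint_left]
    intro x hx hy
    rw [hS1] at hx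
    rw [hS2] at hy
    obtain ⟨i, hi, rfl⟩ := Finset.mem_image.1 hx
    obtain ⟨j, hj, hij⟩ := Finset.mem_image.1 hy
    have h1 := hpow i (Finset.mem_range.1 hi)
    have h2 := hpow j (Finset.mem_range.1 hj)
    omega
  have h7 : 7 ∉ S1 ∪ S2 := by
    rw [Finset.mem_union, not_or]
    constructor
    · intro h
      rw [hS1] at h
      obtain ⟨i, hi, h2⟩ := Finset.mem_image.1 h
      rcases Nat.lt_or_ge i 3 with h3 | h3
      · interval_cases i <;> simp at h2
      · have : 2 ^ 3 ≤ 2 ^ i := Nat.pow_le_pow_right (by norm_num) h3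
        omega
    · intro h
      rw [hS2] at h
      obtain ⟨i, hi, h2⟩ := Finset.mem_image.1 h
      have h1 := hpow i (Finset.mem_range.1 hi)
      omega
  have hsub : insert 7 (S1 ∪ S2) ⊆ (range n).filter fun x => Nat.Coprime n x := by
    intro x hx
    rw [Finset.mem_filter, Finset.mem_range]
    rcases Finset.mem_insert.1 hx with h | h
    · rw [h]
      refine ⟨by omega, ?_⟩
      rw [Nat.coprime_comm, Nat.Prime.coprime_iff_not_dvd (by norm_num), hn]
      exact seven k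
    · rcases Finset.mem_union.1 h with h | h
      · rw [hS1] at h
        obtain ⟨i, hi, rfl⟩ := Finset.mem_image.1 h
        have h1 := hpow i (Finset.mem_range.1 hi)
        exact ⟨by omega, hc2 i⟩
      · rw [hS2] at h
        obtain ⟨i, hi, rfl⟩ := Finset.mem_image.1 h
        have h1 := hpow i (Finset.mem_range.1 hi)
        have h2 : 0 < 2 ^ i := by positivity
        have h5 : 2 ^ i ≤ n := by omega
        refine ⟨by omega, ?_⟩
        exact (Nat.coprime_self_sub_right h5).2 (hc2 i)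
  have h8 := Finset.card_le_card hsub
  rw [Finset.card_insert_of_notMem h7, Finset.card_union_of_disjoint hd, c1, c2] at h8
  rw [← hn, Nat.totient_eq_card_coprime]
  omega

theorem log_pow_add {k : ℕ} (hk : 1 ≤ k) : Nat.log 2 (2 ^ k + 1) = k := by
  rw [Nat.log_eq_iff (Or.inl (by omega))]
  refine ⟨by omega, ?_⟩
  rw [pow_succ]
  have : 2 ^ 1 ≤ 2 ^ k := Nat.pow_le_pow_right (by norm_num) hk
  omega

theorem counter {k : ℕ} (hk : 4 ≤ k) : dimGm (ZMod (2 ^ k + 1)) (2 ^ k - 1) = k := by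
  have h1 := log_pow_add (show 1 ≤ k by omega)
  have h2 := totient_lower hk
  have h3 : 1 ≤ 2 ^ k := Nat.one_le_two_pow
  have h4 := dimGm_eq (n := 2 ^ k + 1) (m := 2 ^ k - 1)
    ((Nat.even_pow.2 ⟨even_two, by omega⟩).add_one) (by omega) (by
      rw [h1]
      have : 2 ^ k + 1 - (2 ^ k - 1) = 2 := by omega
      rw [this]
      exact h2)
  rw [h4, h1]

theorem log_sub {k : ℕ} (hk : 1 ≤ k) : Nat.log 2 (2 ^ k - 1) = k - 1 := by
  obtain ⟨j, rfl⟩ : ∃ j, k = j + 1 := ⟨k - 1, by omega⟩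
  have h3 : 1 ≤ 2 ^ j := Nat.one_le_two_pow
  have h4 : 2 ^ (j + 1) = 2 * 2 ^ j := pow_succ' 2 j
  rcases Nat.eq_zero_or_pos j with h | h
  · subst h
    rfl
  · rw [Nat.log_eq_iff (Or.inl (by omega))]
    refine ⟨by simp only [Nat.add_sub_cancel]; omega, ?_⟩
    have h5 : j + 1 - 1 + 1 = j + 1 := by omega
    rw [h5]
    omega

end Pool.Agent.R325.Dim
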